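import Pool.Agent.X260.QR.Exact

/-!
# Exactness of the induced metric for product-free sets

If the finite set `A` contains no `a`, `b` and `a * b` at the same time, then a finite abelian group
with a basis indexed by `A`, of large exponent, gives exactness for every metric.
-/

set_option autoImplicit false

namespace Pool.Agent.Results.MP_5aaf24_al.ProductFreeSets

/-- For every group `G`, every metric `ρ` on `G` and every finite `A ⊆ G` with `a * b ∉ A` for all
`a, b ∈ A` there are a finite abelian group `F` and a partial monomorphism `ν` on `A` whose image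
generates `F`, such that the induced metric on `F` is exact on `ν(A)`. -/
theorem result (G : Type) [Group G] (ρ : G → G → ℝ) (h0 : ∀ x, ρ x x = 0)
    (hpos : ∀ x y, x ≠ y → 0 < ρ x y) (htri : ∀ x y z, ρ x z ≤ ρ x y + ρ y z) (A : Finset G)
    (hA : ∀ a ∈ A, ∀ b ∈ A, a * b ∉ A) :
    ∃ (F : Type) (_ : CommGroup F) (_ : Finite F) (ν : G → F), Set.InjOn ν A ∧
      (∀ a ∈ A, ∀ b ∈ A, a * b ∈ A → ν (a * b) = ν a * ν b) ∧
      Subgroup.closure (ν '' A) = ⊤ ∧
      ∀ a ∈ A, ∀ b ∈ A, ∀ l : List (G × G), (∀ p ∈ l, p.1 ∈ A ∧ p.2 ∈ A) →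
        (l.map fun p => ν p.1).prod = ν a → (l.map fun p => ν p.2).prod = ν b →
        ρ a b ≤ (l.map fun p => ρ p.1 p.2).sum := by
  classical
  exact Pool.Agent.X260.EX.main ρ h0 hpos htri A hA

end Pool.Agent.Results.MP_5aaf24_al.ProductFreeSets
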